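import Mathlib
import Pool.Agent.J4.H60.BSD.One

set_option autoImplicit false

/-!
# Completion of regular codes with bounded synchronization delay

`IsCode`, `IsMaximalCode`, `IsComplete`, `HasSyncDelay` are defined in
`Pool/Agent/J4/H60/BSD/Defs.lean`; `HasSyncDelay d X` is word for word the definition of the problem
file.

Idea of the proof. If `X` is not complete, choose an unbordered word `y = g1 g2` such that neither
`g1` nor `g2` is a factor of `X∗`, and a large `D`. Then `X∗ ∪ (X∗ y A∗ ∩ A∗ X^D)` is a stable, hence
free, submonoid, and its base is the code `Y`.
-/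

namespace Pool.Agent.Results.MP_832c7d_lc.RegularCompletion

open Pool.Agent.J4.H60.BSD

/-- Every regular code with bounded synchronization delay is contained in a regular code which is
maximal, complete and has bounded synchronization delay. -/
theorem result (A : Type) [Finite A] (X : Language A) (hreg : X.IsRegular) (hX : IsCode X)
    (hs : ∃ d : ℕ, HasSyncDelay d X) :
    ∃ Y : Language A, X ≤ Y ∧ Y.IsRegular ∧ IsMaximalCode Y ∧ IsComplete Y ∧
      ∃ e : ℕ, HasSyncDelay e Y :=
  main_one X hreg hX hs

end Pool.Agent.Results.MP_832c7d_lc.RegularCompletion
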