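import Mathlib
import Pool.Agent.J4.H60.BSD.Two

set_option autoImplicit false

/-!
# Completion of regular codes with bounded two-sided synchronization delay

`IsCode`, `IsMaximalCode`, `IsComplete`, `HasTwoSidedSyncDelay` are defined in
`Pool/Agent/J4/H60/BSD/Defs.lean`. `HasTwoSidedSyncDelay d X` is the definition usual in the theory of
codes: for `x, y ∈ X^d`, if `u x y v ∈ X∗` then `u x ∈ X∗` and `y v ∈ X∗`.

Idea of the proof. For `D = 4 d + 2` the set `X∗ ∪ (X^D A∗ ∩ A∗ X^D)` is a stable, hence free,
submonoid, and its base is the code `Y`.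
-/

namespace Pool.Agent.Results.MP_832c7d_lc.TwoSidedCompletion

open Pool.Agent.J4.H60.BSD

/-- Every regular code with two-sided synchronization delay `d` is contained in a regular code which
is maximal, complete and has two-sided synchronization delay `4 d + 2`. -/
theorem result (A : Type) [Finite A] (X : Language A) (hreg : X.IsRegular) (hX : IsCode X) (d : ℕ)
    (hs : HasTwoSidedSyncDelay d X) :
    ∃ Y : Language A, X ≤ Y ∧ Y.IsRegular ∧ IsMaximalCode Y ∧ IsComplete Y ∧
      HasTwoSidedSyncDelay (4 * d + 2) Y :=
  main_two X hreg hX d hs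

end Pool.Agent.Results.MP_832c7d_lc.TwoSidedCompletion
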